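import Mathlib
import Pool.Agent.H759R2.Kad.Props3
import Pool.Agent.H152R2.Kad2.Orbit

open scoped ComplexOrder InnerProductSpace ComplexConjugate
open Finset

noncomputable section

namespace H759R2.Kad

universe u v

namespace A22

set_option linter.unusedSectionVars false
set_option linter.unusedVariables false

section algebra

variable {B : Type u} [CStarAlgebra B]
variable {ι : Type} [Fintype ι] [DecidableEq ι] {R : ℕ} [NeZero R]

theorem gm_apply (g : ι → unitary B) (i j : ι) :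
    gm g i j = if i = j then (g i : B) else 0 := by
  show Matrix.diagonal (fun c => (g c : B)) i j = _
  rw [Matrix.diagonal_apply]

theorem star_gm (g : ι → unitary B) : star (gm g) = gm fun c => star (g c) := by
  ext i j
  rw [CStarMatrix.star_apply, gm_apply, gm_apply]
  by_cases h : i = j
  · subst h
    simp
  · rw [if_neg h, if_neg (Ne.symm h), star_zero]

theorem gm_ph_comm (g : ι → unitary B) (ω : ι → ZMod R) :
    gm g * ph B ω = ph B ω * gm g := by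
  ext i j
  rw [CStarMatrix.mul_apply, CStarMatrix.mul_apply, Finset.sum_eq_single i, Finset.sum_eq_single i]
  · rw [gm_apply, gm_apply, Tele.ph_apply, Tele.ph_apply]
    by_cases h : i = j
    · subst h
      simp
    · simp [h]
  · intro k _ hk
    rw [Tele.ph_apply, if_neg (Ne.symm hk), zero_mul]
  · simp
  · intro k _ hk
    rw [gm_apply, if_neg (Ne.symm hk), zero_mul]
  · simp

theorem pow_fwd {M : Type*} [Monoid M] (x a : M) (k : ℕ) :
    (x * a) ^ (k + 1) = x * ((a * x) ^ k * a) := by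
  induction k with
  | zero => simp
  | succ k ih =>
    rw [pow_succ', ih, pow_succ' (a * x)]
    simp only [mul_assoc]

end algebra

section cs

theorem cs_sum {Ω : Type*} [Fintype Ω] (f g : Ω → ℝ) (t : ℝ) (ht : 0 ≤ t)
    (h : ∀ s, t ≤ f s * g s) :
    ((Fintype.card Ω : ℝ) * t) ^ 2 ≤ (∑ s, f s ^ 2) * ∑ s, g s ^ 2 := by
  have h1 : (Fintype.card Ω : ℝ) * t ≤ ∑ s, f s * g s := by
    calc (Fintype.card Ω : ℝ) * t = ∑ _s : Ω, t := by
          rw [Finset.sum_const, Finset.card_univ, nsmul_eq_mul]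
      _ ≤ _ := Finset.sum_le_sum fun s _ => h s
  calc ((Fintype.card Ω : ℝ) * t) ^ 2 ≤ (∑ s, f s * g s) ^ 2 := by
        have : 0 ≤ (Fintype.card Ω : ℝ) * t := by positivity
        gcongr
    _ ≤ _ := Finset.sum_mul_sq_le_sq_mul_sq _ _ _

end cs

theorem num_bound (m n k : ℕ) (γ : ℝ) (hγ : 1 ≤ γ) (hm : 0 < m) (hn : 0 < n) (hk : k < m) :
    6 * γ ^ 2 * (γ ^ 2 * (1 + (n : ℝ) ^ (k + 1) * (1 / (12 * m ^ 2 * (n : ℝ) ^ m))) +
      (m * γ) ^ 2 * (1 / (12 * m ^ 2) + (n : ℝ) ^ (k + 1) * (1 / (12 * m ^ 2 * (n : ℝ) ^ m)))) ≤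
      8 * γ ^ 4 := by
  have hm' : (1 : ℝ) ≤ m := by exact_mod_cast hm
  have hn' : (1 : ℝ) ≤ n := by exact_mod_cast hn
  have hm0 : (0 : ℝ) < m := by linarith
  have hn0 : (0 : ℝ) < n := by linarith
  have h1 : (n : ℝ) ^ (k + 1) * (1 / (12 * m ^ 2 * (n : ℝ) ^ m)) ≤ 1 / (12 * m ^ 2) := by
    have h2 : (n : ℝ) ^ (k + 1) ≤ (n : ℝ) ^ m := pow_le_pow_right₀ hn' (by omega)
    have h3 : (0 : ℝ) < (n : ℝ) ^ m := by positivity
    rw [mul_one_div, div_le_div_iff₀ (by positivity) (by positivity)]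
    nlinarith [mul_le_mul_of_nonneg_left h2 (show (0 : ℝ) ≤ 12 * m ^ 2 by positivity)]
  have h4 : (1 : ℝ) / (12 * m ^ 2) ≤ 1 / 12 := by
    apply one_div_le_one_div_of_le (by norm_num)
    nlinarith
  have h5 : (m : ℝ) ^ 2 * (1 / (12 * m ^ 2)) = 1 / 12 := by
    field_simp
  set e : ℝ := (n : ℝ) ^ (k + 1) * (1 / (12 * m ^ 2 * (n : ℝ) ^ m)) with he
  set d : ℝ := 1 / (12 * (m : ℝ) ^ 2) with hd
  have hγ4 : 0 ≤ γ ^ 4 := by positivity
  have h6 : (m * γ) ^ 2 * (d + e) ≤ γ ^ 2 * (1 / 6) := by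
    calc (m * γ) ^ 2 * (d + e) ≤ (m * γ) ^ 2 * (d + d) := by gcongr
      _ = γ ^ 2 * (2 * ((m : ℝ) ^ 2 * d)) := by ring
      _ = γ ^ 2 * (1 / 6) := by rw [h5]; ring
  have h7 : γ ^ 2 * (1 + e) ≤ γ ^ 2 * (1 + 1 / 12) := by
    gcongr
    exact h1.trans h4
  calc 6 * γ ^ 2 * (γ ^ 2 * (1 + e) + (m * γ) ^ 2 * (d + e))
      ≤ 6 * γ ^ 2 * (γ ^ 2 * (1 + 1 / 12) + γ ^ 2 * (1 / 6)) := by gcongr
    _ = 15 / 2 * γ ^ 4 := by ring
    _ ≤ 8 * γ ^ 4 := by nlinarith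


theorem fwd_abs {Ω Ω' : Type*} [Fintype Ω] [Fintype Ω'] [Nonempty Ω] [Nonempty Ω']
    (f g : Ω → Ω' → ℝ) (C t : ℝ) (hC : 0 ≤ C) (ht : 0 ≤ t) (h : ∀ s ω, t ≤ f s ω * g s ω)
    (hf : ∑ s, ∑ ω, f s ω ^ 2 ≤ (Fintype.card Ω * Fintype.card Ω' : ℝ) * (C * t)) :
    (Fintype.card Ω * Fintype.card Ω' : ℝ) * t ≤ C * ∑ s, ∑ ω, g s ω ^ 2 := by
  have hcs := cs_sum (fun p : Ω × Ω' => f p.1 p.2) (fun p => g p.1 p.2) t ht
    (fun p => h p.1 p.2)
  rw [Fintype.card_prod, Fintype.sum_prod_type, Fintype.sum_prod_type] at hcs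
  push_cast at hcs
  have a1 : 0 < Fintype.card Ω := Fintype.card_pos
  have a2 : 0 < Fintype.card Ω' := Fintype.card_pos
  have a3 : (0 : ℝ) < (Fintype.card Ω : ℝ) := by exact_mod_cast a1
  have a4 : (0 : ℝ) < (Fintype.card Ω' : ℝ) := by exact_mod_cast a2
  have hNpos : (0 : ℝ) < (Fintype.card Ω : ℝ) * (Fintype.card Ω' : ℝ) := mul_pos a3 a4
  generalize (Fintype.card Ω : ℝ) * (Fintype.card Ω' : ℝ) = N at *
  have hSg : 0 ≤ ∑ s, ∑ ω, g s ω ^ 2 :=
    Finset.sum_nonneg fun s _ => Finset.sum_nonneg fun ω _ => by positivity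
  generalize ∑ s, ∑ ω, g s ω ^ 2 = Sg at *
  generalize ∑ s, ∑ ω, f s ω ^ 2 = Sf at *
  rcases ht.eq_or_lt with h0 | h0
  · rw [← h0, mul_zero]
    positivity
  · have h8 : (N * t) * (N * t) ≤ (C * Sg) * (N * t) := by
      calc (N * t) * (N * t) = (N * t) ^ 2 := by ring
        _ ≤ Sf * Sg := hcs
        _ ≤ (N * (C * t)) * Sg := mul_le_mul_of_nonneg_right hf hSg
        _ = _ := by ring
    exact le_of_mul_le_mul_right h8 (by positivity)

section uni

variable {B : Type u} [CStarAlgebra B] [PartialOrder B] [StarOrderedRing B]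
variable {ι : Type} [Fintype ι] [DecidableEq ι] {R : ℕ} [NeZero R]

theorem gm_unitary (g : ι → unitary B) : gm g ∈ unitary (CStarMatrix ι ι B) := by
  rw [Unitary.mem_iff]
  constructor
  · rw [star_gm]
    ext i j
    rw [CStarMatrix.mul_apply, Finset.sum_eq_single i]
    · rw [gm_apply, gm_apply, if_pos rfl, CStarMatrix.one_apply]
      by_cases h : i = j
      · subst h
        simp
      · simp [h]
    · intro l _ hl
      rw [gm_apply, if_neg (Ne.symm hl), zero_mul]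
    · simp
  · rw [star_gm]
    ext i j
    rw [CStarMatrix.mul_apply, Finset.sum_eq_single i]
    · rw [gm_apply, gm_apply, if_pos rfl, CStarMatrix.one_apply]
      by_cases h : i = j
      · subst h
        simp
      · simp [h]
    · intro l _ hl
      rw [gm_apply, if_neg (Ne.symm hl), zero_mul]
    · simp

theorem pow_U (x : CStarMatrix ι ι B) (g : ι → unitary B) (ω : ι → ZMod R) (k : ℕ) :
    (x * gm g * ph B ω) ^ (k + 1) = x * Tw x g ω k := by
  rw [mul_assoc, pow_fwd]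
  rfl

theorem star_pow_U (x : CStarMatrix ι ι B) (hx : x ∈ unitary (CStarMatrix ι ι B))
    (g : ι → unitary B) (ω : ι → ZMod R) (q : ℕ) :
    star (x * gm g * ph B ω) ^ (q + 1) * x =
      1 * Tw (star x) (fun c => star (g c)) (-ω) q := by
  have e2 : star (x * gm g * ph B ω) =
      gm (fun c => star (g c)) * ph B (-ω) * star x := by
    rw [star_mul, star_mul, Tele.star_ph, star_gm, ← mul_assoc, gm_ph_comm]
  rw [e2, pow_succ, one_mul, mul_assoc, mul_assoc _ (star x) x, (Unitary.mem_iff.mp hx).1,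
    mul_one]
  rfl

variable {K : Type v} [NormedAddCommGroup K] [InnerProductSpace ℂ K] [CompleteSpace K]

theorem inner_low (w : B →ₗ[ℂ] (K →L[ℂ] K)) (hw : IsHom w) (U : CStarMatrix ι ι B)
    (hU : U ∈ unitary (CStarMatrix ι ι B))
    (hv : amp (vmap w) ι U = star (amp w ι (star U))) (θ : HH ι K) :
    ‖θ‖ ^ 2 ≤ ‖amp (vmap w) ι U θ‖ * ‖amp w ι U θ‖ := by
  have e2 : ⟪amp (vmap w) ι U θ, amp w ι U θ⟫_ℂ = ⟪θ, θ⟫_ℂ := by
    rw [hv, ContinuousLinearMap.star_eq_adjoint, ContinuousLinearMap.adjoint_inner_left,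
      ← mul_apply_eq_comp, ← Orbit.amp_mul hw, (Unitary.mem_iff.mp hU).1, Orbit.amp_one hw]
    rfl
  have e3 : ‖⟪θ, θ⟫_ℂ‖ = ‖θ‖ ^ 2 := by
    rw [inner_self_eq_norm_sq_to_K]
    simp
  calc ‖θ‖ ^ 2 = ‖⟪amp (vmap w) ι U θ, amp w ι U θ⟫_ℂ‖ := by rw [e2, e3]
    _ ≤ _ := norm_inner_le_norm _ _

end uni

end A22

open A22 Orbit in
theorem prove3_orbit (h1 : K_generic.{u, v}) (h2 : K_crude.{u, v}) (h3 : K_vmap.{u, v})
    (h4 : T2_dix.{u, v}) : K_orbit.{u, v} := by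
  intro B _ _ _ K _ _ _ w τ hw hτ hD γ hγ hwc L m hm hmL hL R _ hmR Ω _ _ G x hx hG
  have hn : 0 < m * L := Nat.mul_pos hm (by omega)
  have hγ0 : (0 : ℝ) ≤ γ := by linarith
  have hm0 : (0 : ℝ) < m := by exact_mod_cast hm
  have hn0 : (0 : ℝ) < ((m * L : ℕ) : ℝ) := by exact_mod_cast hn
  -- upper bound
  have up : ∀ (w' : B →ₗ[ℂ] (K →L[ℂ] K)), IsHom w' → (∀ b, ‖w' b‖ ≤ γ * ‖b‖) → LvlBd w' L γ →
      ∀ (G' : Ω → Fin (m * L) → unitary B) (x' y' : CStarMatrix (Fin (m * L)) (Fin (m * L)) B),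
      x' ∈ unitary (CStarMatrix (Fin (m * L)) (Fin (m * L)) B) →
      y' ∈ unitary (CStarMatrix (Fin (m * L)) (Fin (m * L)) B) → ∀ k, k < m →
      GramOK Ω G' x' R k (1 / (12 * m ^ 2 * ((m * L : ℕ) : ℝ) ^ m)) (1 / (12 * m ^ 2)) →
      ∀ θ : HH (Fin (m * L)) K,
      ∑ s, ∑ ω : Fin (m * L) → ZMod R, ‖amp w' (Fin (m * L)) (y' * Tw x' (G' s) ω k) θ‖ ^ 2 ≤
        (Fintype.card Ω * Fintype.card (Fin (m * L) → ZMod R) : ℝ) * (8 * γ ^ 4 * ‖θ‖ ^ 2) := by
    intro w' hw' hwc' hL' G' x' y' hx' hy' k hk hGr θ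
    have h := h1 B K w' τ hw' hτ hD γ γ (m * γ) hγ0 hγ0
      (mul_nonneg hm0.le hγ0) hwc' L (m * L) hn hL'
      (h2 B K w' L m γ hγ0 hL') R k (by omega) (by omega) Ω G' x' y' hx' hy'
      (1 / (12 * m ^ 2 * ((m * L : ℕ) : ℝ) ^ m)) (1 / (12 * m ^ 2)) (by positivity)
      (by positivity) hGr θ
    refine h.trans ?_
    refine mul_le_mul_of_nonneg_left ?_ (by positivity)
    refine mul_le_mul_of_nonneg_right ?_ (by positivity)
    exact num_bound m (m * L) k γ hγ hm hn hk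
  constructor
  · intro θ k hk
    rcases Nat.eq_zero_or_pos k with hk0 | hk0
    · subst hk0
      have e1 : ∀ (s : Ω) (ω : Fin (m * L) → ZMod R),
          ‖amp w (Fin (m * L)) ((x * gm (G s) * ph B ω) ^ 0) θ‖ ^ 2 = ‖θ‖ ^ 2 := by
        intro s ω
        rw [pow_zero, amp_one hw]
        rfl
      simp only [e1, Finset.sum_const, Finset.card_univ, nsmul_eq_mul]
      have h5 : (1 : ℝ) ≤ 8 * γ ^ 4 := by
        have : (1 : ℝ) ≤ γ ^ 4 := one_le_pow₀ hγ
        linarith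
      calc (Fintype.card Ω * Fintype.card (Fin (m * L) → ZMod R) : ℝ) * ‖θ‖ ^ 2
          = 1 * ((Fintype.card Ω : ℝ) * ((Fintype.card (Fin (m * L) → ZMod R) : ℝ) *
              ‖θ‖ ^ 2)) := by ring
        _ ≤ 8 * γ ^ 4 * ((Fintype.card Ω : ℝ) * ((Fintype.card (Fin (m * L) → ZMod R) : ℝ) *
              ‖θ‖ ^ 2)) := mul_le_mul_of_nonneg_right h5 (by positivity)
    · obtain ⟨k', rfl⟩ : ∃ k', k = k' + 1 := ⟨k - 1, by omega⟩
      have hk' : k' < m := by omega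
      obtain ⟨v1, v2, v3⟩ := h3 B K w
      have hb := up (vmap w) hw.vmap (v3 γ hwc) (v2 L γ hL) G x x hx hx k' hk' (hG k' hk').1 θ
      have hUu : ∀ (s : Ω) (ω : Fin (m * L) → ZMod R),
          x * Tw x (G s) ω k' ∈ unitary (CStarMatrix (Fin (m * L)) (Fin (m * L)) B) := by
        intro s ω
        rw [← pow_U]
        exact pow_mem (mul_mem (mul_mem hx (gm_unitary _)) (Tele.ph_unitary _)) _
      have hfin := fwd_abs
        (fun (s : Ω) (ω : Fin (m * L) → ZMod R) =>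
          ‖amp (vmap w) (Fin (m * L)) (x * Tw x (G s) ω k') θ‖)
        (fun (s : Ω) (ω : Fin (m * L) → ZMod R) =>
          ‖amp w (Fin (m * L)) (x * Tw x (G s) ω k') θ‖) (8 * γ ^ 4) (‖θ‖ ^ 2)
        (by positivity) (by positivity)
        (fun s ω => inner_low w hw _ (hUu s ω) (v1 _ _) θ) hb
      refine hfin.trans (le_of_eq ?_)
      congr 1
      refine Finset.sum_congr rfl fun s _ => Finset.sum_congr rfl fun ω _ => ?_
      rw [pow_U]
  · intro ζ q hq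
    have hb := up w hw hwc hL (fun s c => star (G s c)) (star x) 1 (Unitary.star_mem hx)
      (one_mem _) q hq (hG q hq).2 ζ
    refine le_trans (le_of_eq ?_) hb
    refine Finset.sum_congr rfl fun s _ => ?_
    rw [← Equiv.sum_comp (Equiv.neg (Fin (m * L) → ZMod R))
      fun ω => ‖amp w (Fin (m * L)) (1 * Tw (star x) (fun c => star (G s c)) ω q) ζ‖ ^ 2]
    refine Finset.sum_congr rfl fun ω _ => ?_
    rw [← mul_apply_eq_comp, ← amp_mul hw, star_pow_U x hx]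
    rfl

end H759R2.Kad
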